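import Pool.Agent.Helper29.OV.ApiDefs

/-!
# Project OV (MP_81e84b_lc), packet BU2: the advice relations on words with support in `H`
-/

namespace Pool.Agent.Helper24.OV

open Pool.Agent.Helper29.OV

/-! ### Recognisable languages -/

section rec

variable {C : Type}

/-- The monoid element of a letter. -/
def actOp {Q : Type} (δ : Q → C → Q) (c : C) : (Function.End Q)ᵐᵒᵖ :=
  MulOpposite.op (fun q => δ q c)

theorem actOp_prod {Q : Type} (δ : Q → C → Q) (u : List C) (q : Q) :
    (u.map (actOp δ)).prod.unop q = u.foldl δ q := by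
  induction u generalizing q with
  | nil => rfl
  | cons c u ih =>
    rw [List.map_cons, List.prod_cons, MulOpposite.unop_mul, List.foldl_cons, ← ih]
    rfl

/-- A finite family of languages closed under left derivatives is recognisable. -/
theorem rec_of_deriv {Q : Type} [Finite Q] (L : Q → List C → Prop) (δ : Q → C → Q)
    (h : ∀ q c u, L q (c :: u) ↔ L (δ q c) u) (q : Q) : Rec (L q) := by
  have h1 : ∀ (u : List C) (q : Q), L q u ↔ L (u.foldl δ q) [] := by
    intro u
    induction u with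
    | nil => intro q; exact Iff.rfl
    | cons c u ih => intro q; rw [h, List.foldl_cons, ih]
  have h3 : Finite (Function.End Q) := inferInstanceAs (Finite (Q → Q))
  have h4 : Finite (Function.End Q)ᵐᵒᵖ := Finite.of_equiv _ MulOpposite.opEquiv
  refine ⟨(Function.End Q)ᵐᵒᵖ, inferInstance, h4, actOp δ, {x | L (x.unop q) []}, ?_⟩
  intro u
  rw [h1]
  show _ ↔ L ((u.map (actOp δ)).prod.unop q) []
  rw [actOp_prod]

/-- Boolean functions of finitely many recognisable languages. -/
theorem rec_bool {J : Type} [Finite J] {L : J → List C → Prop} (hL : ∀ j, Rec (L j))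
    (F : (J → Prop) → Prop) : Rec fun u => F fun j => L j u := by
  choose M i1 i2 μ T hT using hL
  have : ∀ j, Finite (M j) := i2
  have hp : ∀ (u : List C) (j : J),
      (u.map fun c => (fun j => μ j c : ∀ j, M j)).prod j = (u.map (μ j)).prod := by
    intro u j
    induction u with
    | nil => rfl
    | cons c u ih => rw [List.map_cons, List.prod_cons, List.map_cons, List.prod_cons, ← ih]; rfl
  refine ⟨∀ j, M j, inferInstance, inferInstance, fun c j => μ j c,
    {x | F fun j => x j ∈ T j}, ?_⟩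
  intro u
  show (F fun j => L j u) ↔
    F fun j => (u.map fun c => (fun j => μ j c : ∀ j, M j)).prod j ∈ T j
  have : (fun j => L j u) = fun j => (u.map fun c => (fun j => μ j c : ∀ j, M j)).prod j ∈ T j := by
    funext j
    rw [hp, hT]
  rw [this]

/-- A property which on a set `G` of words depends only on finitely many recognisable languages
agrees on `G` with a recognisable language. -/
theorem rec_of_dep {J : Type} [Finite J] {L : J → List C → Prop} (hL : ∀ j, Rec (L j))
    (G P : List C → Prop)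
    (h : ∀ u u', G u → G u' → (∀ j, L j u ↔ L j u') → P u → P u') :
    ∃ L' : List C → Prop, Rec L' ∧ ∀ u, G u → (L' u ↔ P u) := by
  refine ⟨_, rec_bool hL (fun v => ∃ u', G u' ∧ (∀ j, L j u' ↔ v j) ∧ P u'), ?_⟩
  intro u hu
  constructor
  · rintro ⟨u', h1, h2, h3⟩
    exact h u' u h1 hu h2 h3
  · intro h1
    exact ⟨u, hu, fun _ => Iff.rfl, h1⟩

/-- The first letter with the property `P` exists and has the property `Q`. -/
def Fst (P Q : C → Prop) : List C → Prop
  | [] => False
  | c :: u => (P c ∧ Q c) ∨ (¬ P c ∧ Fst P Q u)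

/-- `Betw X Y Z`: there is a letter with `Z` strictly between the first letter with `X` and the
first letter with `Y`. -/
def Betw (X Y Z : C → Prop) : List C → Prop
  | [] => False
  | c :: u => ¬ Y c ∧ ((X c ∧ Fst (fun c => Y c ∨ Z c) (fun c => ¬ Y c) u) ∨
      (¬ X c ∧ Betw X Y Z u))

/-- States of the automata. -/
inductive St : Type
  | a
  | b
  | yes
  | no

instance : Finite St :=
  Finite.of_surjective (fun n : Fin 4 => match n with
    | 0 => St.a
    | 1 => St.b
    | 2 => St.yes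
    | 3 => St.no) (by
      intro x
      cases x
      · exact ⟨0, rfl⟩
      · exact ⟨1, rfl⟩
      · exact ⟨2, rfl⟩
      · exact ⟨3, rfl⟩)

/-- The languages of the states. -/
def lang (X Y Z : C → Prop) : St → List C → Prop
  | .a => Betw X Y Z
  | .b => Fst (fun c => Y c ∨ Z c) (fun c => ¬ Y c)
  | .yes => fun _ => True
  | .no => fun _ => False

open Classical in
/-- The transitions. -/
noncomputable def trans (X Y Z : C → Prop) : St → C → St
  | .a, c => if Y c then .no else if X c then .b else .a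
  | .b, c => if Y c then .no else if Z c then .yes else .b
  | .yes, _ => .yes
  | .no, _ => .no

theorem rec_lang (X Y Z : C → Prop) (q : St) : Rec (lang X Y Z q) := by
  classical
  refine rec_of_deriv (lang X Y Z) (trans X Y Z) ?_ q
  intro q c u
  cases q with
  | a =>
    have h0 : trans X Y Z .a c = if Y c then .no else if X c then .b else .a := rfl
    rw [h0]
    by_cases h1 : Y c
    · rw [if_pos h1]
      simp [lang, Betw, h1]
    · by_cases h2 : X c
      · rw [if_neg h1, if_pos h2]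
        simp [lang, Betw, h1, h2]
      · rw [if_neg h1, if_neg h2]
        simp [lang, Betw, h1, h2]
  | b =>
    have h0 : trans X Y Z .b c = if Y c then .no else if Z c then .yes else .b := rfl
    rw [h0]
    by_cases h1 : Y c
    · rw [if_pos h1]
      simp [lang, Fst, h1]
    · by_cases h2 : Z c
      · rw [if_neg h1, if_pos h2]
        simp [lang, Fst, h1, h2]
      · rw [if_neg h1, if_neg h2]
        simp [lang, Fst, h1, h2]
  | yes => exact Iff.rfl
  | no => exact Iff.rfl

theorem rec_betw (X Y Z : C → Prop) : Rec (Betw X Y Z) := rec_lang X Y Z .a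

theorem fst_congr {P Q P' Q' : C → Prop} (h1 : ∀ c, P c ↔ P' c)
    (h2 : ∀ c, P c → (Q c ↔ Q' c)) (u : List C) : Fst P Q u ↔ Fst P' Q' u := by
  induction u with
  | nil => exact Iff.rfl
  | cons c u ih =>
    unfold Fst
    rw [← ih, ← h1 c]
    constructor
    · rintro (⟨h3, h4⟩ | h3)
      · exact Or.inl ⟨h3, (h2 c h3).1 h4⟩
      · exact Or.inr h3
    · rintro (⟨h3, h4⟩ | h3)
      · exact Or.inl ⟨h3, (h2 c h3).2 h4⟩
      · exact Or.inr h3

theorem rec_fst (P Q : C → Prop) : Rec (Fst P Q) := by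
  have h := rec_lang (C := C) (fun _ => True) (fun c => P c ∧ ¬ Q c) (fun c => P c ∧ Q c) .b
  have h1 : lang (C := C) (fun _ => True) (fun c => P c ∧ ¬ Q c) (fun c => P c ∧ Q c) .b =
      Fst P Q := by
    funext u
    apply propext
    apply fst_congr
    · intro c
      tauto
    · intro c
      tauto
  rwa [h1] at h

end rec

/-! ### Meaning of the languages -/

section meaning

variable {B : Type}

theorem foVal_nil (x : ℕ) : foVal ([] : List (Cell B)) x = 0 := rfl

open Classical in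
theorem foVal_cons (c : Cell B) (u : List (Cell B)) (x : ℕ) :
    foVal (c :: u) x = if c.fo x then 0 else foVal u x + 1 := by
  unfold foVal
  rw [List.findIdx_cons]
  by_cases h : c.fo x
  · simp [h]
  · simp [h]

theorem foVal_le (u : List (Cell B)) (x : ℕ) : foVal u x ≤ u.length := List.findIdx_le_length

theorem fst_iff (Q : Cell B → Prop) (x : ℕ) (u : List (Cell B)) :
    Fst (fun c => c.fo x) Q u ↔ ∃ c, u[foVal u x]? = some c ∧ Q c := by
  classical
  induction u with
  | nil => simp [Fst]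
  | cons d u ih =>
    unfold Fst
    rw [foVal_cons]
    by_cases h : d.fo x
    · simp [h]
    · simp [h, ih]

theorem fst_lt_iff (x y : ℕ) (u : List (Cell B)) :
    Fst (fun c => c.fo x ∨ c.fo y) (fun c => ¬ c.fo y) u ↔ foVal u x < foVal u y := by
  classical
  induction u with
  | nil => simp [Fst, foVal_nil]
  | cons d u ih =>
    unfold Fst
    rw [foVal_cons, foVal_cons, ih]
    by_cases hx : d.fo x <;> by_cases hy : d.fo y <;> simp [hx, hy]

theorem fst_before_iff (y : ℕ) (Z : Cell B → Prop) (u : List (Cell B)) :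
    Fst (fun c => c.fo y ∨ Z c) (fun c => ¬ c.fo y) u ↔
      ∃ q c, q < foVal u y ∧ u[q]? = some c ∧ Z c := by
  classical
  induction u with
  | nil => simp [Fst, foVal_nil]
  | cons d u ih =>
    unfold Fst
    rw [foVal_cons, ih]
    by_cases hy : d.fo y
    · simp [hy]
    · by_cases hz : Z d
      · simp only [hy, hz, if_false]
        simp only [or_true, not_false_eq_true, and_self, not_true_eq_false, false_and, or_false,
          true_iff]
        exact ⟨0, d, Nat.succ_pos _, rfl, hz⟩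
      · simp only [hy, hz, if_false]
        simp only [or_self, not_false_eq_true, and_true, true_and, false_or]
        constructor
        · rintro ⟨q, c, h1, h2, h3⟩
          exact ⟨q + 1, c, Nat.succ_lt_succ h1, by simpa using h2, h3⟩
        · rintro ⟨q, c, h1, h2, h3⟩
          rcases q with _ | q
          · simp only [List.getElem?_cons_zero, Option.some.injEq] at h2
            exact absurd (h2 ▸ h3) hz
          · exact ⟨q, c, Nat.lt_of_succ_lt_succ h1, by simpa using h2, h3⟩

theorem betw_iff (x y : ℕ) (Z : Cell B → Prop) (u : List (Cell B)) :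
    Betw (fun c => c.fo x) (fun c => c.fo y) Z u ↔
      ∃ q c, foVal u x < q ∧ q < foVal u y ∧ u[q]? = some c ∧ Z c := by
  classical
  induction u with
  | nil => simp [Betw, foVal_nil]
  | cons d u ih =>
    unfold Betw
    rw [foVal_cons, foVal_cons, ih, fst_before_iff]
    by_cases hy : d.fo y
    · simp [hy]
    · by_cases hx : d.fo x
      · simp only [hx, hy, if_false, if_true]
        simp only [not_false_eq_true, true_and, not_true_eq_false, false_and, or_false]
        constructor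
        · rintro ⟨q, c, h1, h2, h3⟩
          exact ⟨q + 1, c, Nat.succ_pos _, Nat.succ_lt_succ h1, by simpa using h2, h3⟩
        · rintro ⟨q, c, h0, h1, h2, h3⟩
          rcases q with _ | q
          · exact absurd h0 (lt_irrefl _)
          · exact ⟨q, c, Nat.lt_of_succ_lt_succ h1, by simpa using h2, h3⟩
      · simp only [hx, hy, if_false]
        simp only [not_false_eq_true, true_and, false_and, false_or]
        constructor
        · rintro ⟨q, c, h0, h1, h2, h3⟩
          exact ⟨q + 1, c, Nat.succ_lt_succ h0, Nat.succ_lt_succ h1, by simpa using h2, h3⟩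
        · rintro ⟨q, c, h0, h1, h2, h3⟩
          rcases q with _ | q
          · exact absurd h0 (Nat.not_lt_zero _)
          · exact ⟨q, c, Nat.lt_of_succ_lt_succ h0, Nat.lt_of_succ_lt_succ h1,
              by simpa using h2, h3⟩

end meaning

/-! ### Increasing lists and tuples -/

section arith

variable {R : ℕ → Set (List ℕ)} {H : Set ℕ} {s K : ℕ}

theorem nxt_spec (hH : H.Infinite) (p : ℕ) : nxt H p ∈ H ∧ p < nxt H p := by
  have h : ({x | x ∈ H ∧ p < x} : Set ℕ).Nonempty := by
    obtain ⟨b, hb, hpb⟩ := hH.exists_gt p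
    exact ⟨b, hb, hpb⟩
  exact Nat.sInf_mem h

theorem nxt_le {p x : ℕ} (hx : x ∈ H) (hpx : p < x) : nxt H p ≤ x := Nat.sInf_le ⟨hx, hpx⟩

theorem inc_ext (hH : H.Infinite) (h r : ℕ) (L : List ℕ) (hL : Inc (H ∩ {x | h < x}) r L) :
    ∀ d : ℕ, ∃ q, Inc (H ∩ {x | h < x}) (r + d) q ∧ ∀ c < r, q.getD c 0 = L.getD c 0 := by
  intro d
  induction d with
  | zero => exact ⟨L, hL, fun _ _ => rfl⟩
  | succ d ih =>
    obtain ⟨q, hq, hq2⟩ := ih
    obtain ⟨b, hb, hb2⟩ := hH.exists_gt (q.sum + h)
    refine ⟨q ++ [b], ⟨?_, ?_, ?_⟩, ?_⟩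
    · rw [List.length_append, hq.1]
      rfl
    · rw [List.pairwise_append]
      refine ⟨hq.2.1, List.pairwise_singleton _ _, ?_⟩
      intro x hx y hy
      rw [List.mem_singleton] at hy
      subst hy
      have := List.le_sum_of_mem hx
      omega
    · intro x hx
      rcases List.mem_append.1 hx with h1 | h1
      · exact hq.2.2 x h1
      · rw [List.mem_singleton] at h1
        subst h1
        exact ⟨hb, by show h < x; omega⟩
    · intro c hc
      rw [List.getD_append _ _ _ _ (by rw [hq.1]; omega)]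
      exact hq2 c hc

theorem iter_lt (hH : H.Infinite) (p : ℕ) : StrictMono fun n => (nxt H)^[n] p := by
  apply strictMono_nat_of_lt_succ
  intro n
  show (nxt H)^[n] p < (nxt H)^[n + 1] p
  rw [Function.iterate_succ_apply']
  exact (nxt_spec hH _).2

/-- The list `nxt^2 p, ..., nxt^(K+1) p`. -/
noncomputable def itl (H : Set ℕ) (K p : ℕ) : List ℕ :=
  (List.range K).map fun c => (nxt H)^[c + 2] p

theorem itl_inc (hH : H.Infinite) (K p : ℕ) : Inc (H ∩ {x | nxt H p < x}) K (itl H K p) := by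
  refine ⟨by simp [itl], ?_, ?_⟩
  · unfold itl
    rw [List.pairwise_map]
    refine List.pairwise_lt_range.imp ?_
    intro a b hab
    exact iter_lt hH p (by omega)
  · intro x hx
    unfold itl at hx
    rw [List.mem_map] at hx
    obtain ⟨c, _, rfl⟩ := hx
    constructor
    · show (nxt H)^[(c + 1) + 1] p ∈ H
      rw [Function.iterate_succ_apply']
      exact (nxt_spec hH _).1
    · show (nxt H)^[1] p < (nxt H)^[c + 2] p
      exact iter_lt hH p (by omega)

theorem itl_getD {p c : ℕ} (hc : c < K + 2) :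
    (p :: nxt H p :: itl H K p).getD c 0 = (nxt H)^[c] p := by
  rcases c with _ | c
  · rfl
  · rcases c with _ | c
    · rfl
    · have hc' : c < K := by omega
      simp [itl, List.getD_eq_getElem?_getD, hc']

/-- The index function of a template. -/
def tmpl (K : ℕ) (π : List ℕ) : Fin K → Fin (K + 2) := fun j =>
  if h : π.getD j 0 < K + 2 then ⟨π.getD j 0, h⟩ else 0

theorem tuple_label (hH : H.Infinite) (hlim : Lim R H s K) {i : ℕ} (hi : i < s) {π : List ℕ}
    (hπ : π.length ≤ K) (hπ2 : ∀ c ∈ π, c < K + 2) (p : ℕ) {q : List ℕ}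
    (hq : Inc (H ∩ {x | nxt H p < x}) K q) :
    (π.map fun c => (p :: nxt H p :: q).getD c 0) ∈ R i ↔
      (labOf R H s K p).2 ⟨i, hi⟩ ⟨π.length, Nat.lt_succ_of_le hπ⟩ (tmpl K π) := by
  have h1 := hlim i hi π hπ hπ2 (nxt H p) (nxt_spec hH p).1 p (nxt_spec hH p).2.le q (itl H K p)
    hq (itl_inc hH K p)
  rw [h1]
  have h2 : (π.map fun c => (p :: nxt H p :: itl H K p).getD c 0) =
      List.map (fun c : Fin (K + 2) => (nxt H)^[(c : ℕ)] p)
        ((List.ofFn (tmpl K π)).take π.length) := by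
    apply List.ext_getElem
    · rw [List.length_map, List.length_map, List.length_take, List.length_ofFn]
      exact (min_eq_left hπ).symm
    · intro n h3 h4
      rw [List.length_map] at h3
      have h5 : n < K := by omega
      simp only [List.getElem_map, List.getElem_take, List.getElem_ofFn]
      have h6 : π[n] < K + 2 := hπ2 _ (List.getElem_mem h3)
      rw [itl_getD h6]
      have h7 : ((tmpl K π ⟨n, h5⟩ : Fin (K + 2)) : ℕ) = π[n] := by
        unfold tmpl
        have h8 : π.getD n 0 = π[n] := by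
          rw [List.getD_eq_getElem _ _ h3]
        simp only [h8]
        rw [dif_pos h6]
      rw [h7]
  have h9 : (do
      let a ← (List.ofFn (tmpl K π)).take π.length
      pure (a : ℕ)) = List.map (fun a : Fin (K + 2) => (a : ℕ))
        ((List.ofFn (tmpl K π)).take π.length) :=
    List.map_eq_flatMap.symm
  have h10 : (labOf R H s K p).2 ⟨i, hi⟩ ⟨π.length, Nat.lt_succ_of_le hπ⟩ (tmpl K π) ↔
      (List.map (fun c => (nxt H)^[c] p) (do
        let a ← (List.ofFn (tmpl K π)).take π.length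
        pure (a : ℕ))) ∈ R i := Iff.rfl
  rw [h2, h10, h9, List.map_map]
  exact Iff.rfl

open Classical in
theorem key (hH : H.Infinite) {xs : List ℕ} (hxs : xs.length ≤ K)
    {v v' : ℕ → ℕ} (hord : ∀ x ∈ xs, ∀ y ∈ xs, v x < v y ↔ v' x < v' y) {x0 : ℕ} (hx0 : x0 ∈ xs)
    (hmin : ∀ y ∈ xs, v x0 ≤ v y) (hvH : ∀ y ∈ xs, v x0 < v y → v y ∈ H)
    (hvH' : ∀ y ∈ xs, v' x0 < v' y → v' y ∈ H)
    (hgap : ∀ y ∈ xs, (∃ q ∈ H, v x0 < q ∧ q < v y) ↔ ∃ q ∈ H, v' x0 < q ∧ q < v' y) :
    ∃ π : List ℕ, π.length = xs.length ∧ (∀ c ∈ π, c < K + 2) ∧ ∃ q q' : List ℕ,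
      Inc (H ∩ {x | nxt H (v x0) < x}) K q ∧ Inc (H ∩ {x | nxt H (v' x0) < x}) K q' ∧
      xs.map v = (π.map fun c => (v x0 :: nxt H (v x0) :: q).getD c 0) ∧
      xs.map v' = (π.map fun c => (v' x0 :: nxt H (v' x0) :: q').getD c 0) := by
  set h := nxt H (v x0) with hh
  set h' := nxt H (v' x0) with hh'
  have heq : ∀ x ∈ xs, ∀ y ∈ xs, v x = v y → v' x = v' y := by
    intro x hx y hy hxy
    rcases lt_trichotomy (v' x) (v' y) with h1 | h1 | h1
    · have := (hord x hx y hy).2 h1; omega
    · exact h1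
    · have := (hord y hy x hx).2 h1; omega
  let L0 : List ℕ := (List.range ((xs.map v).sum + 1)).filter
    (fun z => decide (h < z ∧ ∃ x ∈ xs, v x = z))
  have hL0 : ∀ z, z ∈ L0 ↔ h < z ∧ ∃ x ∈ xs, v x = z := by
    intro z
    simp only [L0, List.mem_filter, List.mem_range, decide_eq_true_eq]
    constructor
    · exact fun h1 => h1.2
    · rintro ⟨h1, x, hx, rfl⟩
      exact ⟨Nat.lt_succ_of_le (List.le_sum_of_mem (List.mem_map_of_mem hx)), h1, x, hx, rfl⟩
  have hL0p : L0.Pairwise (· < ·) := List.pairwise_lt_range.filter _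
  have hL0len : L0.length ≤ K := by
    have h1 : L0.Nodup := hL0p.imp (fun hab => Nat.ne_of_lt hab)
    have h2 : L0 ⊆ xs.map v := by
      intro z hz
      obtain ⟨_, x, hx, rfl⟩ := (hL0 z).1 hz
      exact List.mem_map_of_mem hx
    have h3 := (h1.subperm h2).length_le
    rw [List.length_map] at h3
    omega
  let g : ℕ → ℕ := fun z => if h : ∃ x ∈ xs, v x = z then h.choose else 0
  have hg : ∀ z, (∃ x ∈ xs, v x = z) → g z ∈ xs ∧ v (g z) = z := by
    intro z hz
    simp only [g]
    rw [dif_pos hz]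
    exact hz.choose_spec
  -- the second list
  have hInc : Inc (H ∩ {x | h < x}) L0.length L0 := by
    refine ⟨rfl, hL0p, ?_⟩
    intro z hz
    obtain ⟨h1, x, hx, rfl⟩ := (hL0 z).1 hz
    have h2 := (nxt_spec hH (v x0)).2
    exact ⟨hvH x hx (lt_trans h2 h1), h1⟩
  have hInc' : Inc (H ∩ {x | h' < x}) L0.length (L0.map fun z => v' (g z)) := by
    refine ⟨by simp, ?_, ?_⟩
    · rw [List.pairwise_map]
      refine hL0p.imp_of_mem ?_
      intro a b ha hb hab
      have ha' := hg a ((hL0 a).1 ha).2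
      have hb' := hg b ((hL0 b).1 hb).2
      rw [← hord _ ha'.1 _ hb'.1, ha'.2, hb'.2]
      exact hab
    · intro w hw
      rw [List.mem_map] at hw
      obtain ⟨z, hz, rfl⟩ := hw
      have hz' := hg z ((hL0 z).1 hz).2
      have hhz := ((hL0 z).1 hz).1
      have h2 := (nxt_spec hH (v x0))
      have h3 : v x0 < v (g z) := by rw [hz'.2]; exact lt_trans h2.2 hhz
      have h4 := (hord x0 hx0 _ hz'.1).1 h3
      have h5 : ∃ q ∈ H, v x0 < q ∧ q < v (g z) := ⟨h, h2.1, h2.2, by rw [hz'.2]; exact hhz⟩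
      obtain ⟨q, hq, hq1, hq2⟩ := (hgap _ hz'.1).1 h5
      exact ⟨hvH' _ hz'.1 h4, lt_of_le_of_lt (nxt_le hq hq1) hq2⟩
  obtain ⟨q, hq, hq2⟩ := inc_ext hH h L0.length L0 hInc (K - L0.length)
  obtain ⟨q', hq', hq2'⟩ := inc_ext hH h' L0.length _ hInc' (K - L0.length)
  have hK : L0.length + (K - L0.length) = K := by omega
  rw [hK] at hq hq'
  have hcase : ∀ a ∈ xs, v a ≠ v x0 → v a ≠ h → v a ∈ L0 := by
    intro a ha h1 h2
    have h3 : v x0 < v a := lt_of_le_of_ne (hmin a ha) (Ne.symm h1)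
    have h4 : h ≤ v a := nxt_le (hvH a ha h3) h3
    exact (hL0 _).2 ⟨lt_of_le_of_ne h4 (Ne.symm h2), a, ha, rfl⟩
  refine ⟨xs.map fun a => if v a = v x0 then 0 else if v a = h then 1 else L0.idxOf (v a) + 2,
    by simp, ?_, q, q', hq, hq', ?_, ?_⟩
  · intro c hc
    rw [List.mem_map] at hc
    obtain ⟨a, ha, rfl⟩ := hc
    split_ifs with h1 h2
    · omega
    · omega
    · have h3 := List.idxOf_lt_length_of_mem (hcase a ha h1 h2)
      omega
  · rw [List.map_map]
    refine List.map_congr_left fun a ha => ?_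
    simp only [Function.comp]
    split_ifs with h1 h2
    · exact h1
    · exact h2
    · have h3 := hcase a ha h1 h2
      have h4 := List.idxOf_lt_length_of_mem h3
      show v a = q.getD (L0.idxOf (v a)) 0
      rw [hq2 _ h4, List.getD_eq_getElem _ _ h4, List.getElem_idxOf]
  · rw [List.map_map]
    refine List.map_congr_left fun a ha => ?_
    simp only [Function.comp]
    split_ifs with h1 h2
    · exact heq a ha x0 hx0 h1
    · show v' a = h'
      have h3 : v x0 < v a := by rw [h2]; exact (nxt_spec hH (v x0)).2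
      have h4 := (hord x0 hx0 a ha).1 h3
      have h5 : h' ≤ v' a := nxt_le (hvH' a ha h4) h4
      rcases Nat.lt_or_ge h' (v' a) with h6 | h6
      · exfalso
        have h7 := nxt_spec hH (v' x0)
        obtain ⟨z, hz, hz1, hz2⟩ := (hgap a ha).2 ⟨h', h7.1, h7.2, h6⟩
        have h8 : h ≤ z := nxt_le hz hz1
        omega
      · omega
    · have h3 := hcase a ha h1 h2
      have h4 := List.idxOf_lt_length_of_mem h3
      show v' a = q'.getD (L0.idxOf (v a)) 0
      rw [hq2' _ h4, List.getD_eq_getElem _ _ (by simpa using h4), List.getElem_map,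
        List.getElem_idxOf]
      have h5 := hg (v a) ⟨a, ha, rfl⟩
      exact (heq _ h5.1 a ha h5.2).symm

theorem key2 (hH : H.Infinite) (hlim : Lim R H s K) {i : ℕ} (hi : i < s) {xs : List ℕ}
    (hxs : xs.length ≤ K)
    {v v' : ℕ → ℕ} (hord : ∀ x ∈ xs, ∀ y ∈ xs, v x < v y ↔ v' x < v' y) {x0 : ℕ} (hx0 : x0 ∈ xs)
    (hmin : ∀ y ∈ xs, v x0 ≤ v y) (hvH : ∀ y ∈ xs, v x0 < v y → v y ∈ H)
    (hvH' : ∀ y ∈ xs, v' x0 < v' y → v' y ∈ H)
    (hgap : ∀ y ∈ xs, (∃ q ∈ H, v x0 < q ∧ q < v y) ↔ ∃ q ∈ H, v' x0 < q ∧ q < v' y)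
    (hlab : ∀ k π, (labOf R H s K (v x0)).2 ⟨i, hi⟩ k π → (labOf R H s K (v' x0)).2 ⟨i, hi⟩ k π)
    (h : xs.map v ∈ R i) : xs.map v' ∈ R i := by
  obtain ⟨π, h1, h2, q, q', hq, hq', h3, h4⟩ := key hH hxs hord hx0 hmin hvH hvH' hgap
  rw [h3, tuple_label hH hlim hi (by omega) h2 _ hq] at h
  rw [h4, tuple_label hH hlim hi (by omega) h2 _ hq']
  exact hlab _ _ h

end arith

/-! ### The main statement -/

section main

variable {m : ℕ} {a₀ : Fin m} {R : ℕ → Set (List ℕ)} {H : Set ℕ} {s K : ℕ}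

/-- Goodness in terms of the cells. -/
theorem good_cells {u : List (Cell (Sym m × Lab s K))} (h : GoodW a₀ R H s K (u.map Cell.base)) :
    u.length ∈ H ∧ ∀ p c, u[p]? = some c →
      c.base.2 = labOf R H s K p ∧ (c.base.1 ≠ Sum.inl a₀ → p ∈ H) := by
  refine ⟨by simpa using h.1, ?_⟩
  intro p c hc
  apply h.2 p c.base
  rw [List.getElem?_map, hc]
  rfl

theorem getElem_sym (u : List (Cell (Sym m × Lab s K))) (p : ℕ) :
    (u.map fun c => c.base.1)[p]? = some (Sum.inl a₀) ↔
      ∃ c, u[p]? = some c ∧ c.base.1 = Sum.inl a₀ := by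
  rw [List.getElem?_map, Option.map_eq_some_iff]

/-- The positions of a good word which carry a mark. -/
theorem good_mem {u : List (Cell (Sym m × Lab s K))} (h : GoodW a₀ R H s K (u.map Cell.base))
    {xs : List ℕ}
    (hs : ∀ x ∈ xs, (∃ c, u[foVal u x]? = some c ∧ c.base.1 = Sum.inl a₀) →
      ∀ y ∈ xs, foVal u x ≤ foVal u y) {x0 : ℕ} (hx0 : x0 ∈ xs) :
    ∀ y ∈ xs, foVal u x0 < foVal u y → foVal u y ∈ H := by
  obtain ⟨h1, h2⟩ := good_cells h
  intro y hy hlt
  rcases Nat.lt_or_ge (foVal u y) u.length with h3 | h3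
  · have h4 : u[foVal u y]? = some u[foVal u y] := List.getElem?_eq_getElem h3
    apply (h2 _ _ h4).2
    intro h5
    have := hs y hy ⟨_, h4, h5⟩ x0 hx0
    omega
  · have h4 := foVal_le u y
    have h5 : foVal u y = u.length := le_antisymm h4 h3
    rw [h5]
    exact h1

theorem good_gap {u : List (Cell (Sym m × Lab s K))} (h : GoodW a₀ R H s K (u.map Cell.base))
    (x y : ℕ) :
    (∃ q c, foVal u x < q ∧ q < foVal u y ∧ u[q]? = some c ∧ c.base.2.1) ↔
      ∃ q ∈ H, foVal u x < q ∧ q < foVal u y := by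
  obtain ⟨h1, h2⟩ := good_cells h
  constructor
  · rintro ⟨q, c, h3, h4, h5, h6⟩
    rw [(h2 q c h5).1] at h6
    exact ⟨q, h6, h3, h4⟩
  · rintro ⟨q, hq, h3, h4⟩
    have h5 : q < u.length := lt_of_lt_of_le h4 (foVal_le u y)
    have h6 : u[q]? = some u[q] := List.getElem?_eq_getElem h5
    refine ⟨q, u[q], h3, h4, h6, ?_⟩
    rw [(h2 q _ h6).1]
    exact hq

theorem good_lab {u : List (Cell (Sym m × Lab s K))} (h : GoodW a₀ R H s K (u.map Cell.base))
    {x : ℕ} (hx : foVal u x < u.length) (i : Fin s) (k : Fin (K + 1))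
    (π : Fin K → Fin (K + 2)) :
    (∃ c, u[foVal u x]? = some c ∧ c.base.2.2 i k π) ↔
      (labOf R H s K (foVal u x)).2 i k π := by
  obtain ⟨h1, h2⟩ := good_cells h
  constructor
  · rintro ⟨c, h3, h4⟩
    rwa [(h2 _ c h3).1] at h4
  · intro h3
    have h4 : u[foVal u x]? = some u[foVal u x] := List.getElem?_eq_getElem hx
    refine ⟨_, h4, ?_⟩
    rwa [(h2 _ _ h4).1]

theorem bu2 {m : ℕ} (a₀ : Fin m) (R : ℕ → Set (List ℕ)) (H : Set ℕ) (hH : H.Infinite) (s K : ℕ)
    (hlim : Lim R H s K) (hrep : Rep R H s K) (i : ℕ) (hi : i < s) (xs : List ℕ)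
    (hxs : xs.length ≤ K) :
    ∃ L : List (Cell (Sym m × Lab s K)) → Prop, Rec L ∧
      ∀ u, GoodW a₀ R H s K (u.map Cell.base) → (L u ↔
        ((∀ x ∈ xs, (u.map fun c => c.base.1)[foVal u x]? = some (Sum.inl a₀) →
          ∀ y ∈ xs, foVal u x ≤ foVal u y) ∧ xs.map (foVal u) ∈ R i)) := by
  classical
  let X : Type := {x // x ∈ xs.toFinset}
  let CC : Type := Cell (Sym m × Lab s K)
  let L1 : X × X → List CC → Prop := fun p =>
    Fst (fun c => c.fo p.1.1 ∨ c.fo p.2.1) (fun c => ¬ c.fo p.2.1)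
  let L2 : X → List CC → Prop := fun p => Fst (fun c => c.fo p.1) (fun _ => True)
  let L3 : X → List CC → Prop := fun p => Fst (fun c => c.fo p.1) (fun c => c.base.1 = Sum.inl a₀)
  let L4 : X × Fin (K + 1) × (Fin K → Fin (K + 2)) → List CC → Prop := fun p =>
    Fst (fun c => c.fo p.1.1) (fun c => c.base.2.2 ⟨i, hi⟩ p.2.1 p.2.2)
  let L5 : X × X → List CC → Prop := fun p =>
    Betw (fun c => c.fo p.1.1) (fun c => c.fo p.2.1) (fun c => c.base.2.1)
  let L : (X × X) ⊕ X ⊕ X ⊕ (X × Fin (K + 1) × (Fin K → Fin (K + 2))) ⊕ (X × X) →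
      List CC → Prop := Sum.elim L1 (Sum.elim L2 (Sum.elim L3 (Sum.elim L4 L5)))
  have hL : ∀ j, Rec (L j) := by
    rintro (p | p | p | p | p)
    · exact rec_fst _ _
    · exact rec_fst _ _
    · exact rec_fst _ _
    · exact rec_fst _ _
    · exact rec_betw _ _ _
  refine rec_of_dep hL (fun u => GoodW a₀ R H s K (u.map Cell.base)) _ ?_
  rintro u u' hu hu' hj ⟨hside, hR⟩
  have hX : ∀ {x : ℕ}, x ∈ xs → x ∈ xs.toFinset := fun hx => List.mem_toFinset.2 hx
  have hA : ∀ x ∈ xs, ∀ y ∈ xs, foVal u x < foVal u y ↔ foVal u' x < foVal u' y := by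
    intro x hx y hy
    have := hj (Sum.inl (⟨x, hX hx⟩, ⟨y, hX hy⟩))
    rw [← fst_lt_iff, ← fst_lt_iff]
    exact this
  have hE : ∀ x ∈ xs, foVal u x < u.length ↔ foVal u' x < u'.length := by
    intro x hx
    have h1 := hj (Sum.inr (Sum.inl ⟨x, hX hx⟩))
    have h2 : ∀ w : List CC, L2 ⟨x, hX hx⟩ w ↔ foVal w x < w.length := by
      intro w
      show Fst (fun c : CC => c.fo x) (fun _ => True) w ↔ _
      rw [fst_iff]
      constructor
      · rintro ⟨c, hc, _⟩
        exact (List.getElem?_eq_some_iff.1 hc).1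
      · intro h
        exact ⟨w[foVal w x], List.getElem?_eq_getElem h, trivial⟩
    rw [← h2, ← h2]
    exact h1
  have hC : ∀ x ∈ xs, (∃ c, u[foVal u x]? = some c ∧ c.base.1 = Sum.inl a₀) ↔
      ∃ c, u'[foVal u' x]? = some c ∧ c.base.1 = Sum.inl a₀ := by
    intro x hx
    have h1 := hj (Sum.inr (Sum.inr (Sum.inl ⟨x, hX hx⟩)))
    rw [← fst_iff (fun c : CC => c.base.1 = Sum.inl a₀),
      ← fst_iff (fun c : CC => c.base.1 = Sum.inl a₀)]
    exact h1
  have hD : ∀ x ∈ xs, ∀ k π, (∃ c, u[foVal u x]? = some c ∧ c.base.2.2 ⟨i, hi⟩ k π) ↔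
      ∃ c, u'[foVal u' x]? = some c ∧ c.base.2.2 ⟨i, hi⟩ k π := by
    intro x hx k π
    have h1 := hj (Sum.inr (Sum.inr (Sum.inr (Sum.inl (⟨x, hX hx⟩, k, π)))))
    rw [← fst_iff (fun c : CC => c.base.2.2 ⟨i, hi⟩ k π),
      ← fst_iff (fun c : CC => c.base.2.2 ⟨i, hi⟩ k π)]
    exact h1
  have hN : ∀ x ∈ xs, ∀ y ∈ xs, (∃ q ∈ H, foVal u x < q ∧ q < foVal u y) ↔
      ∃ q ∈ H, foVal u' x < q ∧ q < foVal u' y := by
    intro x hx y hy
    have h1 := hj (Sum.inr (Sum.inr (Sum.inr (Sum.inr (⟨x, hX hx⟩, ⟨y, hX hy⟩)))))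
    rw [← good_gap hu, ← good_gap hu', ← betw_iff x y (fun c : CC => c.base.2.1),
      ← betw_iff x y (fun c : CC => c.base.2.1)]
    exact h1
  have hs : ∀ x ∈ xs, (∃ c, u[foVal u x]? = some c ∧ c.base.1 = Sum.inl a₀) →
      ∀ y ∈ xs, foVal u x ≤ foVal u y := by
    intro x hx h1
    exact hside x hx ((getElem_sym u _).2 h1)
  have hs' : ∀ x ∈ xs, (∃ c, u'[foVal u' x]? = some c ∧ c.base.1 = Sum.inl a₀) →
      ∀ y ∈ xs, foVal u' x ≤ foVal u' y := by
    intro x hx h1 y hy
    have h2 := hs x hx ((hC x hx).2 h1) y hy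
    by_contra h3
    push Not at h3
    have := (hA y hy x hx).2 h3
    omega
  refine ⟨fun x hx h1 => hs' x hx ((getElem_sym u' _).1 h1), ?_⟩
  by_cases hall : ∀ x ∈ xs, foVal u x = u.length
  · have hall' : ∀ x ∈ xs, foVal u' x = u'.length := by
      intro x hx
      have h1 := hE x hx
      have h2 := foVal_le u' x
      have h3 := hall x hx
      by_contra h4
      have h5 : foVal u' x < u'.length := lt_of_le_of_ne h2 h4
      have := h1.2 h5
      omega
    have e1 : xs.map (foVal u) = List.replicate xs.length u.length := by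
      rw [List.eq_replicate_iff]
      refine ⟨by simp, ?_⟩
      intro b hb
      rw [List.mem_map] at hb
      obtain ⟨x, hx, rfl⟩ := hb
      exact hall x hx
    have e2 : xs.map (foVal u') = List.replicate xs.length u'.length := by
      rw [List.eq_replicate_iff]
      refine ⟨by simp, ?_⟩
      intro b hb
      rw [List.mem_map] at hb
      obtain ⟨x, hx, rfl⟩ := hb
      exact hall' x hx
    rw [e1] at hR
    rw [e2]
    rcases hrep i hi xs.length hxs with h1 | h1
    · exact h1 _ (good_cells hu').1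
    · exact absurd hR (h1 _ (good_cells hu).1)
  · push Not at hall
    obtain ⟨x1, hx1, hx1'⟩ := hall
    obtain ⟨x0, hx0, hmin⟩ : ∃ x0 ∈ xs, ∀ y ∈ xs, foVal u x0 ≤ foVal u y := by
      obtain ⟨x0, h1, h2⟩ := Finset.exists_min_image xs.toFinset (foVal u) ⟨x1, hX hx1⟩
      exact ⟨x0, List.mem_toFinset.1 h1, fun y hy => h2 y (hX hy)⟩
    have h0 : foVal u x0 < u.length :=
      lt_of_le_of_lt (hmin x1 hx1) (lt_of_le_of_ne (foVal_le u x1) hx1')
    have h0' : foVal u' x0 < u'.length := (hE x0 hx0).1 h0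
    refine key2 hH hlim hi hxs hA hx0 hmin (good_mem hu hs hx0) (good_mem hu' hs' hx0)
      (fun y hy => hN x0 hx0 y hy) ?_ hR
    intro k π h1
    rw [← good_lab hu' h0', ← hD x0 hx0 k π]
    rwa [← good_lab hu h0] at h1

end main

end Pool.Agent.Helper24.OV
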